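import Mathlib

/-!
# Random layers with few coincidences
-/

set_option autoImplicit false
set_option linter.unusedSectionVars false

namespace Pool.Agent.R25.Qr

open Finset

section layer

variable {A B : Type} [Fintype A] [DecidableEq A] [Fintype B] [DecidableEq B]

/-- the defect of `g` on `S`: the size of `S` minus the size of its image -/
def defe (g : A → B) (S : Finset A) : ℕ := S.card - (S.image g).card

lemma card_image_add_defe (g : A → B) (S : Finset A) : (S.image g).card + defe g S = S.card := by
  unfold defe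
  have := Finset.card_image_le (s := S) (f := g)
  omega

/-- exchanging the value at `a` with a free parameter -/
lemma swap_sum (a : A) (F : (A → B) → B → ℝ)
    (hF : ∀ g b b', F (Function.update g a b') b = F g b) :
    (Fintype.card B : ℝ) * ∑ g : A → B, F g (g a) = ∑ g : A → B, ∑ b : B, F g b := by
  have hinv : Function.Involutive
      (fun p : (A → B) × B => ((Function.update p.1 a p.2, p.1 a) : (A → B) × B)) := by
    rintro ⟨g, b⟩
    simp
  have h1 : ∑ p : (A → B) × B, F p.1 p.2 =
      ∑ p : (A → B) × B, F (Function.update p.1 a p.2) (p.1 a) :=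
    (Equiv.sum_comp (hinv.toPerm) (fun p : (A → B) × B => F p.1 p.2)).symm
  have h2 : ∑ p : (A → B) × B, F (Function.update p.1 a p.2) (p.1 a) =
      ∑ p : (A → B) × B, F p.1 (p.1 a) :=
    Finset.sum_congr rfl (fun p _ => hF _ _ _)
  rw [h2, Fintype.sum_prod_type, Fintype.sum_prod_type] at h1
  rw [h1, Finset.mul_sum]
  apply Finset.sum_congr rfl
  intro g _
  simp

lemma image_update_of_notMem {a : A} {S : Finset A} (ha : a ∉ S) (g : A → B) (b : B) :
    S.image (Function.update g a b) = S.image g := by
  apply Finset.image_congr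
  intro c hc
  have : c ≠ a := fun h => ha (h ▸ Finset.mem_coe.1 hc)
  exact Function.update_of_ne this _ _

lemma defe_insert_le {a : A} {S : Finset A} (ha : a ∉ S) (g : A → B) {z : ℝ} (hz : 1 ≤ z) :
    z ^ defe g (insert a S) ≤ z ^ defe g S * (1 + z * (if g a ∈ S.image g then 1 else 0)) := by
  have hc : (insert a S).card = S.card + 1 := Finset.card_insert_of_notMem ha
  have hz0 : 0 < z ^ defe g S := by positivity
  by_cases h : g a ∈ S.image g
  · rw [if_pos h, mul_one]
    have h1 : (insert a S).image g = S.image g := by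
      rw [Finset.image_insert, Finset.insert_eq_self.2 h]
    have h2 : defe g (insert a S) = defe g S + 1 := by
      unfold defe
      rw [h1, hc]
      have := Finset.card_image_le (s := S) (f := g)
      omega
    rw [h2, pow_succ]
    nlinarith
  · rw [if_neg h, mul_zero, add_zero, mul_one]
    have h1 : ((insert a S).image g).card = (S.image g).card + 1 := by
      rw [Finset.image_insert, Finset.card_insert_of_notMem h]
    have h2 : defe g (insert a S) = defe g S := by
      unfold defe
      rw [h1, hc]
      omega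
    rw [h2]

/-- the exponential moment of the defect -/
lemma moment {z : ℝ} (hz : 1 ≤ z) (X : ℕ) (hX : z * X ≤ Fintype.card B)
    (hB : 0 < Fintype.card B) (S : Finset A) (hS : S.card ≤ X) :
    ∑ g : A → B, z ^ defe g S ≤ (Fintype.card B : ℝ) ^ Fintype.card A * 2 ^ S.card := by
  induction S using Finset.induction_on with
  | empty =>
    simp [defe]
  | insert a S ha ih =>
    have hc : (insert a S).card = S.card + 1 := Finset.card_insert_of_notMem ha
    have ih' := ih (by omega)
    have hBr : (0 : ℝ) < Fintype.card B := by exact_mod_cast hB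
    have h1 : ∑ g : A → B, z ^ defe g (insert a S) ≤
        ∑ g : A → B, z ^ defe g S +
          z * ∑ g : A → B, z ^ defe g S * (if g a ∈ S.image g then 1 else 0) := by
      rw [Finset.mul_sum, ← Finset.sum_add_distrib]
      apply Finset.sum_le_sum
      intro g _
      refine (defe_insert_le ha g hz).trans (le_of_eq ?_)
      ring
    have h2 : (Fintype.card B : ℝ) *
        ∑ g : A → B, z ^ defe g S * (if g a ∈ S.image g then 1 else 0) =
        ∑ g : A → B, ∑ b : B, z ^ defe g S * (if b ∈ S.image g then 1 else 0) := by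
      apply swap_sum a (fun g b => z ^ defe g S * (if b ∈ S.image g then 1 else 0))
      intro g b b'
      show z ^ defe (Function.update g a b') S *
        (if b ∈ S.image (Function.update g a b') then 1 else 0) = _
      unfold defe
      rw [image_update_of_notMem ha]
    have h3 : ∑ g : A → B, ∑ b : B, z ^ defe g S * (if b ∈ S.image g then 1 else 0) ≤
        (S.card : ℝ) * ∑ g : A → B, z ^ defe g S := by
      rw [Finset.mul_sum]
      apply Finset.sum_le_sum
      intro g _
      rw [← Finset.mul_sum, mul_comm]
      apply mul_le_mul_of_nonneg_right _ (by positivity)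
      rw [Finset.sum_ite_mem, Finset.univ_inter, Finset.sum_const, nsmul_eq_mul, mul_one]
      exact_mod_cast Finset.card_image_le
    have hpos : 0 ≤ ∑ g : A → B, z ^ defe g S := Finset.sum_nonneg (fun g _ => by positivity)
    have h4 : z * ∑ g : A → B, z ^ defe g S * (if g a ∈ S.image g then 1 else 0) ≤
        ∑ g : A → B, z ^ defe g S := by
      have h5 : (Fintype.card B : ℝ) *
          (z * ∑ g : A → B, z ^ defe g S * (if g a ∈ S.image g then 1 else 0)) ≤
          (Fintype.card B : ℝ) * ∑ g : A → B, z ^ defe g S := by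
        have h6 : z * (S.card : ℝ) ≤ Fintype.card B := by
          have : (S.card : ℝ) ≤ X := by exact_mod_cast (by omega : S.card ≤ X)
          nlinarith
        calc (Fintype.card B : ℝ) *
              (z * ∑ g : A → B, z ^ defe g S * (if g a ∈ S.image g then 1 else 0))
            = z * ((Fintype.card B : ℝ) *
              ∑ g : A → B, z ^ defe g S * (if g a ∈ S.image g then 1 else 0)) := by ring
          _ ≤ z * ((S.card : ℝ) * ∑ g : A → B, z ^ defe g S) := by
              rw [h2]
              exact mul_le_mul_of_nonneg_left h3 (by linarith)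
          _ = (z * S.card) * ∑ g : A → B, z ^ defe g S := by ring
          _ ≤ _ := mul_le_mul_of_nonneg_right h6 hpos
      exact le_of_mul_le_mul_left h5 hBr
    rw [hc, pow_succ]
    calc _ ≤ _ := h1
      _ ≤ 2 * ∑ g : A → B, z ^ defe g S := by linarith
      _ ≤ 2 * ((Fintype.card B : ℝ) ^ Fintype.card A * 2 ^ S.card) := by linarith
      _ = _ := by ring

end layer

section layers

variable {t n : ℕ} (d m : Fin t → ℕ)

/-- the layers that are low for sets of `x` vertices -/
def low (n : ℕ) (d : Fin t → ℕ) (x : ℕ) : Finset (Fin t) :=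
  Finset.univ.filter fun i => d i ^ 8 * x ≤ n

/-- the families of maps that are bad for the set `S` -/
def bad (n : ℕ) (d m : Fin t → ℕ) (S : Finset (Fin n)) :
    Finset (∀ i : Fin t, Fin n → Fin (m i)) :=
  Finset.univ.filter fun f => 5 * S.card ≤ 4 * ∑ i ∈ low n d S.card, defe (f i) S

lemma card_total : (Fintype.card (∀ i : Fin t, Fin n → Fin (m i)) : ℝ) =
    ∏ i : Fin t, (m i : ℝ) ^ n := by
  rw [Fintype.card_pi]
  push_cast
  apply Finset.prod_congr rfl
  intro i _
  simp

lemma bad_card (hdm : ∀ i, d i * m i = n) (hm : ∀ i, 0 < m i)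
    (S : Finset (Fin n)) (hS : S.Nonempty) (w : ℝ) (hw : w ^ 32 = n / S.card) (hw1 : 1 ≤ w) :
    ((bad n d m S).card : ℝ) * w ^ (35 * S.card) ≤
      (Fintype.card (∀ i : Fin t, Fin n → Fin (m i)) : ℝ) * (2 ^ S.card) ^ t := by
  classical
  have hx : (0 : ℝ) < S.card := by exact_mod_cast hS.card_pos
  have hw0 : 0 < w := by linarith
  have hz1 : (1 : ℝ) ≤ w ^ 28 := one_le_pow₀ hw1
  set J := low n d S.card with hJ
  -- every layer
  have hlayer : ∀ i : Fin t, ∑ g : Fin n → Fin (m i),
      (if i ∈ J then (w ^ 28) ^ defe g S else 1) ≤ (m i : ℝ) ^ n * 2 ^ S.card := by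
    intro i
    by_cases hi : i ∈ J
    · simp only [if_pos hi]
      have hdi : (d i : ℝ) ^ 8 * S.card ≤ n := by
        have := (Finset.mem_filter.1 hi).2
        exact_mod_cast this
      have hdz : (d i : ℝ) ≤ w ^ 4 := by
        have h1 : (d i : ℝ) ^ 8 ≤ (w ^ 4) ^ 8 := by
          rw [← pow_mul, hw, le_div_iff₀ hx]
          exact hdi
        exact le_of_pow_le_pow_left₀ (by norm_num) (by positivity) h1
      have hzx : w ^ 28 * S.card ≤ Fintype.card (Fin (m i)) := by
        rw [Fintype.card_fin]
        have h1 : w ^ 4 * (w ^ 28 * S.card) = (d i : ℝ) * m i := by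
          have : w ^ 4 * (w ^ 28 * S.card) = w ^ 32 * S.card := by ring
          rw [this, hw, div_mul_cancel₀ _ hx.ne']
          exact_mod_cast (hdm i).symm
        have hm0 : (0 : ℝ) < m i := by exact_mod_cast hm i
        have h2 : w ^ 4 * (w ^ 28 * S.card) ≤ w ^ 4 * m i := by
          rw [h1]
          exact mul_le_mul_of_nonneg_right hdz hm0.le
        exact le_of_mul_le_mul_left h2 (by positivity)
      have := moment (A := Fin n) (B := Fin (m i)) hz1 S.card hzx
        (by rw [Fintype.card_fin]; exact hm i) S le_rfl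
      rw [Fintype.card_fin, Fintype.card_fin] at this
      exact this
    · simp only [if_neg hi]
      rw [Finset.sum_const, Finset.card_univ, nsmul_eq_mul, mul_one, Fintype.card_fun,
        Fintype.card_fin, Fintype.card_fin]
      push_cast
      have h1 : (1 : ℝ) ≤ 2 ^ S.card := one_le_pow₀ (by norm_num)
      have h2 : (0 : ℝ) ≤ (m i : ℝ) ^ n := by positivity
      nlinarith
  have hprod : ∏ i : Fin t, ∑ g : Fin n → Fin (m i), (if i ∈ J then (w ^ 28) ^ defe g S else 1) ≤
      (Fintype.card (∀ i : Fin t, Fin n → Fin (m i)) : ℝ) * (2 ^ S.card) ^ t := by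
    calc _ ≤ ∏ i : Fin t, ((m i : ℝ) ^ n * 2 ^ S.card) := by
          apply Finset.prod_le_prod
          · intro i _
            apply Finset.sum_nonneg
            intro g _
            split_ifs
            · positivity
            · exact zero_le_one
          · intro i _
            exact hlayer i
      _ = _ := by
          rw [Finset.prod_mul_distrib, card_total]
          simp
  refine le_trans ?_ hprod
  rw [Fintype.prod_sum]
  have h1 : ∀ f : (∀ i : Fin t, Fin n → Fin (m i)),
      ∏ i : Fin t, (if i ∈ J then (w ^ 28) ^ defe (f i) S else 1) =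
        w ^ (28 * ∑ i ∈ J, defe (f i) S) := by
    intro f
    rw [Finset.prod_ite_mem, Finset.univ_inter, Finset.prod_pow_eq_pow_sum, ← pow_mul]
  rw [Finset.sum_congr rfl (fun f _ => h1 f)]
  calc ((bad n d m S).card : ℝ) * w ^ (35 * S.card)
      = ∑ _f ∈ bad n d m S, w ^ (35 * S.card) := by
        rw [Finset.sum_const, nsmul_eq_mul]
    _ ≤ ∑ f ∈ bad n d m S, w ^ (28 * ∑ i ∈ J, defe (f i) S) := by
        apply Finset.sum_le_sum
        intro f hf
        have h2 := (Finset.mem_filter.1 hf).2
        apply pow_le_pow_right₀ hw1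
        rw [← hJ] at h2
        omega
    _ ≤ _ := by
        apply Finset.sum_le_sum_of_subset_of_nonneg (Finset.subset_univ _)
        intro f _ _
        positivity

/-- the union bound -/
theorem exists_layers (hn : 0 < n) (hdm : ∀ i, d i * m i = n)
    (hd : ∀ i, (12 * 2 ^ t) ^ 2 ≤ d i) :
    ∃ f : ∀ i : Fin t, Fin n → Fin (m i), ∀ S : Finset (Fin n), S.Nonempty →
      4 * ∑ i ∈ low n d S.card, defe (f i) S < 5 * S.card := by
  classical
  have hm : ∀ i, 0 < m i := fun i => by
    rcases Nat.eq_zero_or_pos (m i) with h | h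
    · have := hdm i
      rw [h, mul_zero] at this
      omega
    · exact h
  set T : ℝ := (Fintype.card (∀ i : Fin t, Fin n → Fin (m i)) : ℝ) with hT
  have hTpos : 0 < T := by
    rw [hT, card_total]
    apply Finset.prod_pos
    intro i _
    have : (0 : ℝ) < m i := by exact_mod_cast hm i
    positivity
  set W : ℕ → ℝ := fun x => ((n : ℝ) / x) ^ (((32 : ℕ) : ℝ)⁻¹) with hW
  have hW32 : ∀ x : ℕ, W x ^ 32 = (n : ℝ) / x := fun x => by
    rw [hW]
    exact Real.rpow_inv_natCast_pow (by positivity) (by norm_num)
  have hW0 : ∀ x : ℕ, 0 ≤ W x := fun x => by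
    rw [hW]
    exact Real.rpow_nonneg (by positivity) _
  -- bound for the number of bad families, by the size of the set
  set h : ℕ → ℝ := fun x => if x = 0 ∨ low n d x = ∅ then 0 else
    T * ((2 : ℝ) ^ t / (W x) ^ 35) ^ x with hh
  have hnz : ∀ x : ℕ, ¬ (x = 0 ∨ low n d x = ∅) →
      (0 : ℝ) < x ∧ 1 ≤ W x ∧ 12 * 2 ^ t ≤ W x ^ 3 := by
    intro x hx
    rw [not_or] at hx
    have hx0 : (0 : ℝ) < x := by exact_mod_cast Nat.pos_of_ne_zero hx.1
    refine ⟨hx0, ?_⟩
    obtain ⟨i, hi⟩ := Finset.nonempty_iff_ne_empty.2 hx.2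
    have h1 := (Finset.mem_filter.1 hi).2
    have h2 : (d i : ℝ) ^ 8 ≤ (W x ^ 4) ^ 8 := by
      rw [← pow_mul, hW32, le_div_iff₀ hx0]
      exact_mod_cast h1
    have h3 : (d i : ℝ) ≤ W x ^ 4 :=
      le_of_pow_le_pow_left₀ (by norm_num) (pow_nonneg (hW0 x) 4) h2
    have h4 : (((12 * 2 ^ t) ^ 2 : ℕ) : ℝ) ≤ d i := by exact_mod_cast hd i
    push_cast at h4
    have hp : (1 : ℝ) ≤ 2 ^ t := one_le_pow₀ (by norm_num)
    have h5 : (12 * 2 ^ t : ℝ) ^ 2 ≤ (W x ^ 2) ^ 2 := by
      calc (12 * 2 ^ t : ℝ) ^ 2 ≤ d i := h4
        _ ≤ W x ^ 4 := h3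
        _ = (W x ^ 2) ^ 2 := by ring
    have h6 : (12 * 2 ^ t : ℝ) ≤ W x ^ 2 :=
      le_of_pow_le_pow_left₀ (by norm_num) (pow_nonneg (hW0 x) 2) h5
    have h7 : 1 ≤ W x := by
      by_contra hlt
      push Not at hlt
      have : W x ^ 2 ≤ 1 := pow_le_one₀ (hW0 x) hlt.le
      linarith
    refine ⟨h7, ?_⟩
    have h8 : W x ^ 2 ≤ W x ^ 3 := pow_le_pow_right₀ h7 (by norm_num)
    linarith
  have hbad : ∀ S : Finset (Fin n), S.Nonempty → ((bad n d m S).card : ℝ) ≤ h S.card := by
    intro S hS
    by_cases hx : S.card = 0 ∨ low n d S.card = ∅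
    · rw [hh]
      simp only [if_pos hx]
      have hlow : low n d S.card = ∅ := by
        rcases hx with hx | hx
        · exact absurd hx hS.card_pos.ne'
        · exact hx
      have : bad n d m S = ∅ := by
        unfold bad
        rw [hlow]
        apply Finset.filter_false_of_mem
        intro f _
        rw [Finset.sum_empty]
        have := hS.card_pos
        omega
      rw [this]
      simp
    · obtain ⟨hx0, hw1, -⟩ := hnz _ hx
      rw [hh]
      simp only [if_neg hx]
      have hb := bad_card d m hdm hm S hS (W S.card) (hW32 _) hw1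
      have hw0 : 0 < W S.card := by linarith
      have hz3 : 0 < W S.card ^ (35 * S.card) := by positivity
      rw [← le_div_iff₀ hz3] at hb
      refine hb.trans (le_of_eq ?_)
      rw [div_pow, ← pow_mul, ← pow_mul, ← pow_mul, mul_comm t, mul_div_assoc]
  have hchoose : ∀ x : ℕ, (n.choose x : ℝ) * h x ≤ if x = 0 then 0 else T * (1 / 4) ^ x := by
    intro x
    by_cases hx : x = 0 ∨ low n d x = ∅
    · rw [hh]
      simp only [if_pos hx, mul_zero]
      split_ifs
      · exact le_rfl
      · positivity
    · obtain ⟨hx0, hw1, hz⟩ := hnz x hx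
      rw [hh]
      simp only [if_neg hx]
      have hxne : x ≠ 0 := fun h => hx (Or.inl h)
      rw [if_neg hxne]
      have hw0 : 0 < W x := by linarith
      have hw32 := hW32 x
      set w := W x with hwdef
      have h1 : (n.choose x : ℝ) ≤ (n : ℝ) ^ x / (x.factorial : ℝ) := Nat.choose_le_pow_div x n
      have h2 : (x : ℝ) ^ x / (x.factorial : ℝ) ≤ Real.exp x :=
        Real.pow_div_factorial_le_exp _ hx0.le x
      have h3 : Real.exp x ≤ 3 ^ x := by
        have : Real.exp x = Real.exp 1 ^ x := by
          rw [← Real.exp_nat_mul, mul_one]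
        rw [this]
        apply pow_le_pow_left₀ (Real.exp_pos _).le
        have := Real.exp_one_lt_d9
        linarith
      have h4 : (n.choose x : ℝ) ≤ (3 * w ^ 32) ^ x := by
        have h5 : (n : ℝ) ^ x / (x.factorial : ℝ) =
            ((n : ℝ) / x) ^ x * ((x : ℝ) ^ x / (x.factorial : ℝ)) := by
          rw [div_pow]
          field_simp
        rw [h5] at h1
        calc (n.choose x : ℝ) ≤ _ := h1
          _ ≤ ((n : ℝ) / x) ^ x * 3 ^ x := by
              apply mul_le_mul_of_nonneg_left (h2.trans h3) (by positivity)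
          _ = (3 * w ^ 32) ^ x := by rw [hw32, mul_pow, mul_comm]
      calc (n.choose x : ℝ) * (T * ((2 : ℝ) ^ t / w ^ 35) ^ x)
          ≤ (3 * w ^ 32) ^ x * (T * ((2 : ℝ) ^ t / w ^ 35) ^ x) := by
            apply mul_le_mul_of_nonneg_right h4 (by positivity)
        _ = T * (3 * w ^ 32 * ((2 : ℝ) ^ t / w ^ 35)) ^ x := by
            rw [mul_pow (3 * w ^ 32)]
            ring
        _ ≤ T * (1 / 4) ^ x := by
            apply mul_le_mul_of_nonneg_left _ hTpos.le
            apply pow_le_pow_left₀ (by positivity)
            have h6 : 3 * w ^ 32 * ((2 : ℝ) ^ t / w ^ 35) = 3 * 2 ^ t / w ^ 3 := by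
              field_simp
            rw [h6, div_le_iff₀ (by positivity)]
            linarith
  have hsum : ∑ S : Finset (Fin n), (if S.Nonempty then ((bad n d m S).card : ℝ) else 0) < T := by
    calc ∑ S : Finset (Fin n), (if S.Nonempty then ((bad n d m S).card : ℝ) else 0)
        ≤ ∑ S : Finset (Fin n), h S.card := by
          apply Finset.sum_le_sum
          intro S _
          split_ifs with hS
          · exact hbad S hS
          · rw [Finset.not_nonempty_iff_eq_empty.1 hS]
            rw [hh]
            simp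
      _ = ∑ x ∈ Finset.range (n + 1), (n.choose x : ℝ) * h x := by
          have h1 := Finset.sum_powerset_apply_card h (x := (Finset.univ : Finset (Fin n)))
          rw [Finset.powerset_univ, Finset.card_univ, Fintype.card_fin] at h1
          rw [h1]
          apply Finset.sum_congr rfl
          intro x _
          rw [nsmul_eq_mul]
      _ ≤ ∑ x ∈ Finset.range (n + 1), (if x = 0 then 0 else T * (1 / 4) ^ x) :=
          Finset.sum_le_sum (fun x _ => hchoose x)
      _ < T := by
          have key : ∀ N : ℕ, ∑ x ∈ Finset.range (N + 1),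
              (if x = 0 then (0 : ℝ) else T * (1 / 4) ^ x) = T * (1 - (1 / 4) ^ N) / 3 := by
            intro N
            induction N with
            | zero => simp
            | succ N ih =>
              rw [Finset.sum_range_succ, ih, if_neg (Nat.succ_ne_zero N), pow_succ]
              ring
          rw [key]
          have : (0 : ℝ) < (1 / 4) ^ n := by positivity
          nlinarith
  by_contra hcon
  push Not at hcon
  have hcover : (Finset.univ : Finset (∀ i : Fin t, Fin n → Fin (m i))) ⊆
      (Finset.univ : Finset (Finset (Fin n))).biUnion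
        (fun S => if S.Nonempty then bad n d m S else ∅) := by
    intro f _
    obtain ⟨S, hS, hle⟩ := hcon f
    rw [Finset.mem_biUnion]
    refine ⟨S, Finset.mem_univ _, ?_⟩
    rw [if_pos hS]
    unfold bad
    rw [Finset.mem_filter]
    exact ⟨Finset.mem_univ _, hle⟩
  have h1 := (Finset.card_le_card hcover).trans Finset.card_biUnion_le
  rw [Finset.card_univ] at h1
  have h2 : T ≤ ∑ S : Finset (Fin n), (if S.Nonempty then ((bad n d m S).card : ℝ) else 0) := by
    rw [hT]
    calc ((Fintype.card (∀ i : Fin t, Fin n → Fin (m i)) : ℕ) : ℝ)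
        ≤ ((∑ S : Finset (Fin n), (if S.Nonempty then bad n d m S else ∅).card : ℕ) : ℝ) := by
          exact_mod_cast h1
      _ = _ := by
          push_cast
          apply Finset.sum_congr rfl
          intro S _
          split_ifs
          · rfl
          · simp
  linarith

end layers

end Pool.Agent.R25.Qr
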